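import Mathlib

open Filter Topology Set

namespace Pool.Agent.Results.MP_e24518_an.Control

variable {E : Type*} [NormedAddCommGroup E] [NormedSpace ℝ E] [Lattice E]
  [IsOrderedAddMonoid E] [HasSolidNorm E] [PosSMulMono ℝ E]

lemma smul_pos' {c : ℝ} (hc : 0 < c) (y : E) : (c • y) ⊔ 0 = c • (y ⊔ 0) := by
  refine le_antisymm (sup_le (smul_le_smul_of_nonneg_left le_sup_left hc.le)
    (smul_nonneg hc.le le_sup_right)) ?_
  have h : y ⊔ 0 ≤ c⁻¹ • ((c • y) ⊔ 0) := by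
    refine sup_le ?_ (smul_nonneg (inv_nonneg.2 hc.le) le_sup_right)
    have := smul_le_smul_of_nonneg_left (le_sup_left : c • y ≤ (c • y) ⊔ 0) (inv_nonneg.2 hc.le)
    rwa [smul_smul, inv_mul_cancel₀ hc.ne', one_smul] at this
  have := smul_le_smul_of_nonneg_left h hc.le
  rwa [smul_smul, mul_inv_cancel₀ hc.ne', one_smul] at this

lemma norm_mono {a b : E} (ha : 0 ≤ a) (hab : a ≤ b) : ‖a‖ ≤ ‖b‖ :=
  norm_le_norm_of_abs_le_abs (by rwa [abs_of_nonneg ha, abs_of_nonneg (ha.trans hab)])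

lemma norming (x : E) (hx : 0 ≤ x) :
    ∃ f : E →L[ℝ] ℝ, (∀ y, 0 ≤ y → 0 ≤ f y) ∧ (∀ y, f y ≤ ‖y‖) ∧ f x = ‖x‖ := by
  by_cases h0 : x = 0
  · exact ⟨0, by simp, by simp, by simp [h0]⟩
  obtain ⟨g, hg1, hg2⟩ := exists_extension_of_le_sublinear
    (LinearPMap.mkSpanSingleton (K := ℝ) x ‖x‖ h0) (fun y => ‖y ⊔ 0‖)
    (fun c hc y => by rw [smul_pos' hc, norm_smul, Real.norm_of_nonneg hc.le])
    (fun y z => (norm_mono le_sup_right (sup_le (add_le_add le_sup_left le_sup_left)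
      (add_nonneg le_sup_right le_sup_right))).trans (norm_add_le _ _))
    (by
      rintro ⟨y, hy⟩
      obtain ⟨c, rfl⟩ := Submodule.mem_span_singleton.1 hy
      rw [LinearPMap.mkSpanSingleton'_apply]
      rcases lt_or_ge 0 c with hc | hc
      · simp only [RingHom.id_apply, smul_eq_mul]
        rw [smul_pos' hc, sup_eq_left.2 hx, norm_smul, Real.norm_of_nonneg hc.le]
      · exact (mul_nonpos_of_nonpos_of_nonneg hc (norm_nonneg _)).trans (norm_nonneg _))
  have hle : ∀ y, g y ≤ ‖y‖ := fun y => (hg2 y).trans (norm_le_norm_of_abs_le_abs (by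
    rw [abs_of_nonneg le_sup_right]
    exact sup_le (le_abs_self y) (abs_nonneg y)))
  refine ⟨g.mkContinuous 1 fun y => ?_, fun y hy => ?_, hle, ?_⟩
  · rw [one_mul, Real.norm_eq_abs, abs_le]
    have := hle (-y)
    rw [map_neg, norm_neg] at this
    exact ⟨by linarith, hle y⟩
  · have := hg2 (-y)
    rw [map_neg, sup_eq_right.2 (neg_nonpos.2 hy), norm_zero] at this
    simpa using this
  · have := hg1 ⟨x, Submodule.mem_span_singleton_self x⟩
    rw [LinearPMap.mkSpanSingleton_apply] at this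
    exact this

def sp (x : ℕ → E) : ℕ → E
  | 0 => x 0
  | m + 1 => sp x m ⊔ x (m + 1)

lemma key (hoc : ∀ x : ℕ → E, Monotone x ∨ Antitone x → BddAbove (range x) →
      BddBelow (range x) → ∃ l, Tendsto x atTop (𝓝 l)) (u : E) {ε : ℝ} (hε : 0 < ε) :
    ∃ f : E →L[ℝ] ℝ, (∀ y, 0 ≤ y → 0 ≤ f y) ∧ ∃ δ > 0, ∀ x, 0 ≤ x → x ≤ u → f x < δ →
      ‖x‖ < ε := by
  by_contra hn
  push Not at hn
  choose! X hX0 hXu hXf hXe using hn
  choose! N hN0 hN1 hNx using (norming (E := E))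
  obtain ⟨d, hd⟩ : ∃ d : ℕ → ℝ, d = fun n => ε / 2 ^ (n + 1) := ⟨_, rfl⟩
  have hdp : ∀ n, 0 < d n := fun n => by rw [hd]; positivity
  obtain ⟨F, hF0, hFs⟩ : ∃ F : ℕ → E →L[ℝ] ℝ, F 0 = 0 ∧
      ∀ n, F (n + 1) = F n + N (X (F n) (d n)) :=
    ⟨fun n => Nat.rec 0 (fun n f => f + N (X f (d n))) n, rfl, fun _ => rfl⟩
  have hFp : ∀ n y, 0 ≤ y → 0 ≤ F n y := by
    intro n
    induction n with
    | zero => simp [hF0]
    | succ n ih =>
      intro y hy
      rw [hFs]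
      exact add_nonneg (ih y hy) (hN0 _ (hX0 _ ih _ (hdp n)) y hy)
  obtain ⟨x, hx⟩ : ∃ x : ℕ → E, x = fun n => X (F n) (d n) := ⟨_, rfl⟩
  have x0 : ∀ n, 0 ≤ x n := fun n => by rw [hx]; exact hX0 _ (hFp n) _ (hdp n)
  have xu : ∀ n, x n ≤ u := fun n => by rw [hx]; exact hXu _ (hFp n) _ (hdp n)
  have xf : ∀ n, F n (x n) < d n := fun n => by rw [hx]; exact hXf _ (hFp n) _ (hdp n)
  have xe : ∀ n, ε ≤ ‖x n‖ := fun n => by rw [hx]; exact hXe _ (hFp n) _ (hdp n)
  have hFs' : ∀ n, F (n + 1) = F n + N (x n) := fun n => by rw [hx]; exact hFs n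
  have dom : ∀ n k y, 0 ≤ y → N (x n) y ≤ F (n + 1 + k) y := by
    intro n k y hy
    induction k with
    | zero => rw [add_zero, hFs']; exact le_add_of_nonneg_left (hFp n y hy)
    | succ k ih =>
      rw [← add_assoc, hFs']
      exact ih.trans (le_add_of_nonneg_right (hN0 _ (x0 _) y hy))
  have smono : ∀ z : ℕ → E, Monotone (sp z) := fun z =>
    monotone_nat_of_le_succ fun m => le_sup_left
  have s0 : ∀ n m, x n ≤ sp (fun k => x (n + k)) m := fun n m =>
    smono (fun k => x (n + k)) (Nat.zero_le m)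
  have su : ∀ n m, sp (fun k => x (n + k)) m ≤ u := by
    intro n m
    induction m with
    | zero => exact xu _
    | succ m ih => exact sup_le ih (xu _)
  have ss : ∀ n m, sp (fun k => x (n + 1 + k)) m ≤ sp (fun k => x (n + k)) (m + 1) := by
    intro n m
    induction m with
    | zero => exact le_sup_right
    | succ m ih =>
      exact sup_le_sup ih (le_of_eq (congrArg x (by omega)))
  have sf : ∀ n m, N (x n) (sp (fun k => x (n + 1 + k)) m) ≤ ε / 2 - ε / 2 ^ (m + 2) := by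
    have b : ∀ n k, N (x n) (x (n + 1 + k)) ≤ ε / 2 ^ (k + 2) := fun n k => by
      refine (dom n k _ (x0 _)).trans ((xf _).le.trans ?_)
      rw [hd]
      exact div_le_div_of_nonneg_left hε.le (by positivity)
        (pow_le_pow_right₀ (by norm_num) (by omega))
    intro n m
    induction m with
    | zero =>
      refine (b n 0).trans (le_of_eq ?_)
      ring
    | succ m ih =>
      have h1 : sp (fun k => x (n + 1 + k)) (m + 1) ≤
          sp (fun k => x (n + 1 + k)) m + x (n + 1 + (m + 1)) :=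
        sup_le (le_add_of_nonneg_right (x0 _)) (le_add_of_nonneg_left ((x0 _).trans (s0 _ m)))
      have h2 := hN0 _ (x0 n) _ (sub_nonneg.2 h1)
      rw [map_sub, map_add] at h2
      have h3 := b n (m + 1)
      have e : ε / 2 ^ (m + 2) = 2 * (ε / 2 ^ (m + 1 + 2)) := by ring
      linarith
  choose y hy using fun n => hoc (sp fun k => x (n + k)) (Or.inl (smono _))
    ⟨u, by rintro _ ⟨m, rfl⟩; exact su n m⟩ ⟨x n, by rintro _ ⟨m, rfl⟩; exact s0 n m⟩
  have xy : ∀ n, x n ≤ y n := fun n => ge_of_tendsto' (hy n) (s0 n)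
  have ya : Antitone y := antitone_nat_of_succ_le fun n =>
    le_of_tendsto_of_tendsto' (hy (n + 1)) ((hy n).comp (tendsto_add_atTop_nat 1)) (ss n)
  obtain ⟨l, hl⟩ := hoc y (Or.inr ya) ⟨y 0, by rintro _ ⟨m, rfl⟩; exact ya (Nat.zero_le m)⟩
    ⟨0, by rintro _ ⟨m, rfl⟩; exact (x0 m).trans (xy m)⟩
  have gap : ∀ n, ε / 2 ≤ ‖y n - y (n + 1)‖ := by
    intro n
    have h1 : N (x n) (y (n + 1)) ≤ ε / 2 :=
      le_of_tendsto' (((N (x n)).continuous.tendsto _).comp (hy (n + 1))) fun m =>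
        (sf n m).trans (sub_le_self _ (by positivity))
    have h2 := hN0 _ (x0 n) _ (sub_nonneg.2 (xy n))
    have h3 := hN1 _ (x0 n) (y n - y (n + 1))
    rw [map_sub] at h2 h3
    have h4 := hNx _ (x0 n)
    have h5 := xe n
    linarith
  have lim : Tendsto (fun n => ‖y n - y (n + 1)‖) atTop (𝓝 ‖l - l‖) :=
    (hl.sub (hl.comp (tendsto_add_atTop_nat 1))).norm
  have := ge_of_tendsto' lim gap
  rw [sub_self, norm_zero] at this
  linarith

lemma control (hoc : ∀ x : ℕ → E, Monotone x ∨ Antitone x → BddAbove (range x) →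
      BddBelow (range x) → ∃ l, Tendsto x atTop (𝓝 l)) (u : E) :
    ∃ f : E →L[ℝ] ℝ, (∀ y, 0 ≤ y → 0 ≤ f y) ∧ ∀ ε > 0, ∃ δ > 0, ∀ x, 0 ≤ x → x ≤ u →
      f x < δ → ‖x‖ < ε := by
  choose f hf δ hδ H using fun j : ℕ => key hoc u (Nat.one_div_pos_of_nat (α := ℝ) (n := j))
  obtain ⟨c, hc⟩ : ∃ c : ℕ → ℝ, c = fun j => (1 / 2) ^ j / (1 + ‖f j‖) := ⟨_, rfl⟩
  have hcp : ∀ j, 0 < c j := fun j => by rw [hc]; positivity
  have hs : Summable fun j => c j • f j := by
    refine Summable.of_norm_bounded summable_geometric_two fun j => ?_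
    rw [norm_smul, Real.norm_of_nonneg (hcp j).le, hc, div_mul_eq_mul_div,
      div_le_iff₀ (by positivity)]
    gcongr
    linarith
  have ev : ∀ y, HasSum (fun j => c j * f j y) ((∑' j, c j • f j) y) := fun y => by
    simpa using (ContinuousLinearMap.apply ℝ ℝ y).hasSum hs.hasSum
  refine ⟨∑' j, c j • f j, fun y hy => (ev y).nonneg fun j =>
    mul_nonneg (hcp j).le (hf j y hy), fun ε hε => ?_⟩
  obtain ⟨j, hj⟩ := exists_nat_one_div_lt hε
  refine ⟨c j * δ j, mul_pos (hcp j) (hδ j), fun x hx hxu h => (H j x hx hxu ?_).trans hj⟩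
  have := le_hasSum (ev x) j fun i _ => mul_nonneg (hcp i).le (hf i x hx)
  exact lt_of_mul_lt_mul_left (this.trans_lt h) (hcp j).le

theorem result {E : Type} [NormedAddCommGroup E] [NormedSpace ℝ E] [CompleteSpace E] [Lattice E]
    [IsOrderedAddMonoid E] [HasSolidNorm E] [PosSMulMono ℝ E]
    (hoc : ∀ x : ℕ → E, Monotone x ∨ Antitone x → BddAbove (range x) →
      BddBelow (range x) → ∃ l, Tendsto x atTop (𝓝 l))
    {X : Type} [MeasurableSpace X] (μ : Set X → E)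
    (h0 : ∀ A, MeasurableSet A → 0 ≤ μ A)
    (hm : ∀ A B, MeasurableSet A → MeasurableSet B → A ⊆ B → μ A ≤ μ B) :
    ∃ f : E →L[ℝ] ℝ, (∀ y, 0 ≤ y → 0 ≤ f y) ∧
      ∀ ε > 0, ∃ δ > 0, ∀ A, MeasurableSet A → f (μ A) < δ → ‖μ A‖ < ε := by
  obtain ⟨f, hf, H⟩ := control hoc (μ univ)
  refine ⟨f, hf, fun ε hε => ?_⟩
  obtain ⟨δ, hδ, h⟩ := H ε hε
  exact ⟨δ, hδ, fun A hA => h _ (h0 A hA) (hm _ _ hA MeasurableSet.univ (subset_univ A))⟩

end Pool.Agent.Results.MP_e24518_an.Control
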